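import Pool.Agent.H48.RG.Targets

/-! Partial regularity of stationary harmonic maps (MP_2697e3_an), part D: row GEQ, the equation in the
gauge. -/

set_option autoImplicit false

namespace Pool.Agent.H46.RG

open MeasureTheory Metric Set Filter Topology Pool.Agent.H48.RG Pool.Agent.H87.SN
open scoped ContDiff RealInnerProductSpace ENNReal

noncomputable section

theorem int_inner {n : ℕ} {μ : Measure (E n)} {F G : E n → E n} (hF : MemLp F 2 μ)
    (hG : MemLp G 2 μ) : Integrable (fun x => ⟪F x, G x⟫) μ :=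
  (hF.norm.integrable_mul hG.norm).mono' (hF.1.inner hG.1)
    (Eventually.of_forall fun _ => norm_inner_le_norm _ _)

theorem WB_mono {n : ℕ} {U V : Set (E n)} {f : E n → ℝ} {D : E n → E n} (h : V ⊆ U)
    (hf : WB U f D) : WB V f D where
  ms := hf.ms.mono_measure (Measure.restrict_mono h le_rfl)
  bd := by
    obtain ⟨B, hB⟩ := hf.bd
    exact ⟨B, ae_mono (Measure.restrict_mono h le_rfl) hB⟩
  d2 := hf.d2.mono_measure (Measure.restrict_mono h le_rfl)
  wg := fun φ hφ v => hf.wg φ ⟨hφ.1, hφ.2.1, hφ.2.2.trans h⟩ v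

theorem cont_fd {n : ℕ} {U : Set (E n)} {φ : E n → ℝ} (hφ : Tst U φ) (v : E n) :
    Continuous (fun x => fderiv ℝ φ x v) ∧ HasCompactSupport (fun x => fderiv ℝ φ x v) ∧
    Function.support (fun x => fderiv ℝ φ x v) ⊆ U ∧ Function.support φ ⊆ U := by
  refine ⟨(hφ.1.continuous_fderiv (by simp)).clm_apply continuous_const, ?_, ?_,
    (subset_tsupport _).trans hφ.2.2⟩
  · exact (hφ.2.1.fderiv (𝕜 := ℝ)).mono (by
      intro x hx h
      refine hx ?_
      show fderiv ℝ φ x v = 0
      rw [h]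
      rfl)
  · intro x hx
    refine hφ.2.2 (support_fderiv_subset ℝ (f := φ) ?_)
    intro h
    refine hx ?_
    show fderiv ℝ φ x v = 0
    rw [h]
    rfl

theorem int_wg {n : ℕ} {U : Set (E n)} {f : E n → ℝ} {D : E n → E n} (hf : WB U f D)
    {φ : E n → ℝ} (hφ : Tst U φ) (v : E n) : Integrable (fun x => fderiv ℝ φ x v * f x) ∧
    Integrable (fun x => φ x * ⟪D x, v⟫) := by
  obtain ⟨h1, h2, h3, h4⟩ := cont_fd hφ v
  constructor
  · rw [← integrableOn_iff_integrable_of_support_subset (s := U)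
      ((Function.support_mul_subset_left _ _).trans h3)]
    obtain ⟨B, hB⟩ := hf.bd
    exact Integrable.mul_bdd (c := B) ((h1.integrable_of_hasCompactSupport h2).restrict) hf.ms
      (by filter_upwards [hB] with x hx using hx)
  · rw [← integrableOn_iff_integrable_of_support_subset (s := U)
      ((Function.support_mul_subset_left _ _).trans h4)]
    have h5 : MemLp (fun x => φ x • v) 2 (volume : Measure (E n)) := by
      refine Continuous.memLp_of_hasCompactSupport (hφ.1.continuous.smul continuous_const) ?_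
      exact hφ.2.1.smul_right
    refine (int_inner hf.d2 (h5.restrict U)).congr (Eventually.of_forall fun x => ?_)
    show ⟪D x, φ x • v⟫ = φ x * ⟪D x, v⟫
    rw [real_inner_smul_right]

theorem WB_add {n : ℕ} {U : Set (E n)} {f g : E n → ℝ} {D D' : E n → E n} (hf : WB U f D)
    (hg : WB U g D') : WB U (fun x => f x + g x) (fun x => D x + D' x) where
  ms := hf.ms.add hg.ms
  bd := by
    obtain ⟨B, hB⟩ := hf.bd
    obtain ⟨B', hB'⟩ := hg.bd
    refine ⟨B + B', ?_⟩
    filter_upwards [hB, hB'] with x h1 h2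
    exact (abs_add_le _ _).trans (add_le_add h1 h2)
  d2 := hf.d2.add hg.d2
  wg := by
    intro φ hφ v
    obtain ⟨a1, a2⟩ := int_wg hf hφ v
    obtain ⟨b1, b2⟩ := int_wg hg hφ v
    simp only [mul_add, inner_add_left]
    rw [integral_add a1 b1, integral_add a2 b2, hf.wg φ hφ v, hg.wg φ hφ v]
    ring

theorem WB_const {n : ℕ} {U : Set (E n)} (c : ℝ) :
    WB U (fun _ => c) (fun _ => (0 : E n)) where
  ms := aestronglyMeasurable_const
  bd := ⟨|c|, Eventually.of_forall fun _ => le_rfl⟩
  d2 := MemLp.zero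
  wg := by
    intro φ hφ v
    obtain ⟨h1, h2, -, -⟩ := cont_fd hφ v
    have h3 := integral_mul_fderiv_eq_neg_fderiv_mul_of_integrable (μ := (volume : Measure (E n)))
      (f := fun _ : E n => (1 : ℝ)) (g := φ) (v := v) (by simp)
      (by simpa using h1.integrable_of_hasCompactSupport h2)
      (by simpa using hφ.1.continuous.integrable_of_hasCompactSupport hφ.2.1)
      (fun x _ => differentiableAt_const _)
      (fun x _ => (hφ.1.differentiable (by simp)).differentiableAt)
    simp only [one_mul, fderiv_fun_const, Pi.zero_apply, zero_apply, zero_mul,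
      integral_zero, neg_zero] at h3
    rw [integral_mul_const, h3]
    simp

theorem WB_sum {n m : ℕ} {U : Set (E n)} {f : Fin m → E n → ℝ} {D : Fin m → E n → E n}
    (hf : ∀ k, WB U (f k) (D k)) : WB U (fun x => ∑ k, f k x) (fun x => ∑ k, D k x) := by
  have h : ∀ s : Finset (Fin m), WB U (fun x => ∑ k ∈ s, f k x) (fun x => ∑ k ∈ s, D k x) := by
    intro s
    induction s using Finset.induction_on with
    | empty => simpa using WB_const (n := n) (U := U) 0
    | insert a s ha ih =>
      simp only [Finset.sum_insert ha]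
      exact WB_add (hf a) ih
  exact h Finset.univ

theorem bracket {n m : ℕ} (P : Fin m → Fin m → ℝ) (DP : Fin m → Fin m → E n)
    (Om : Fin m → Fin m → E n) (D w : Fin m → E n) (Df : E n) (f : ℝ) (j : Fin m)
    (hw : w j = ∑ k, P k j • D k) (h1 : ∀ k, D k = ∑ i, P k i • w i)
    (h2 : ∀ i, ∑ k, (P k i • DP k j + P k j • DP k i) = 0) :
    ⟪w j, Df⟫ - f * ∑ i, ⟪∑ k, P k j • DP k i + ∑ k, ∑ l, (P k j * P l i) • Om k l, w i⟫ =
      ∑ k, (⟪D k, P k j • Df + f • DP k j⟫ - (P k j * f) * ∑ l, ⟪Om k l, D l⟫) := by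
  have e1 : ∑ i, ⟪∑ k, P k j • DP k i, w i⟫ = - ∑ k, ⟪D k, DP k j⟫ := by
    have e2 : ∀ i, ⟪∑ k, P k j • DP k i, w i⟫ = - ∑ k, P k i * ⟪w i, DP k j⟫ := by
      intro i
      have h3 := h2 i
      rw [Finset.sum_add_distrib] at h3
      rw [eq_neg_of_add_eq_zero_right h3, inner_neg_left, sum_inner]
      congr 1
      refine Finset.sum_congr rfl fun k _ => ?_
      rw [real_inner_smul_left, real_inner_comm]
    rw [Finset.sum_congr rfl fun i _ => e2 i, Finset.sum_neg_distrib, Finset.sum_comm]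
    congr 1
    refine Finset.sum_congr rfl fun k _ => ?_
    conv_rhs => rw [h1 k]
    rw [sum_inner]
    refine Finset.sum_congr rfl fun i _ => ?_
    rw [real_inner_smul_left]
  have e3 : ∑ i, ⟪∑ k, ∑ l, (P k j * P l i) • Om k l, w i⟫ =
      ∑ k, P k j * ∑ l, ⟪Om k l, D l⟫ := by
    simp only [sum_inner]
    rw [Finset.sum_comm]
    refine Finset.sum_congr rfl fun k _ => ?_
    rw [Finset.sum_comm, Finset.mul_sum]
    refine Finset.sum_congr rfl fun l _ => ?_
    conv_rhs => rw [h1 l]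
    rw [inner_sum, Finset.mul_sum]
    refine Finset.sum_congr rfl fun i _ => ?_
    rw [real_inner_smul_left, real_inner_smul_right]
    ring
  have e4 : ⟪w j, Df⟫ = ∑ k, P k j * ⟪D k, Df⟫ := by
    rw [hw, sum_inner]
    refine Finset.sum_congr rfl fun k _ => ?_
    rw [real_inner_smul_left]
  simp only [inner_add_left, Finset.sum_add_distrib]
  rw [e1, e3, e4]
  have e5 : ∀ k, ⟪D k, P k j • Df + f • DP k j⟫ - (P k j * f) * ∑ l, ⟪Om k l, D l⟫ =
      P k j * ⟪D k, Df⟫ + f * ⟪D k, DP k j⟫ - f * (P k j * ∑ l, ⟪Om k l, D l⟫) := by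
    intro k
    rw [inner_add_right, real_inner_smul_right, real_inner_smul_right]
    ring
  rw [Finset.sum_congr rfl fun k _ => e5 k, Finset.sum_sub_distrib, Finset.sum_add_distrib,
    ← Finset.mul_sum, ← Finset.mul_sum]
  ring

theorem pf_GEQ (hT : T_TSE) (hL : T_LEI) (hE : T_EXT) (hU : T_UNI) (hW : T_WWP) : T_GEQ := by
  intro n m K u D Om P DP hS hG ρ f Df j hρ hρ1 hf
  obtain ⟨w1, w2, w3, w4, -⟩ := hW n m K u D Om P DP hS hG
  have hfb : WB (ball (0 : E n) 1) f Df := WB_mono (subset_univ _) hf.wb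
  -- the test functions
  have hψ : ∀ k, WC ρ (fun x => P k j x * f x) (fun x => P k j x • Df x + f x • DP k j x) := by
    intro k
    refine hE n ρ _ _ hρ hρ1 (hL n _ _ _ _ (hG.wb k j) hfb) ?_
    intro x hx
    obtain ⟨h1, h2⟩ := hf.off x hx
    rw [h1, h2]
    simp
  have hψb : ∀ k, WB (ball (0 : E n) 1) (fun x => P k j x * f x)
      (fun x => P k j x • Df x + f x • DP k j x) := fun k => WB_mono (subset_univ _) (hψ k).wb
  have hh : ∀ k, Integrable (fun x => ∑ l, ⟪Om k l x, D l x⟫)
      (volume.restrict (ball (0 : E n) 1)) := fun k =>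
    integrable_finsetSum _ fun l _ => int_inner (w4 k l) (hS.wb l).d2
  -- the equations
  have heq : ∀ k, ∫ x in ball (0 : E n) 1, ⟪D k x, P k j x • Df x + f x • DP k j x⟫ =
      ∫ x in ball (0 : E n) 1, (P k j x * f x) * ∑ l, ⟪Om k l x, D l x⟫ := by
    intro k
    refine hT n (D k) (fun x => ∑ l, ⟪Om k l x, D l x⟫) (hS.wb k).d2 (hh k) ?_ ρ _ _ hρ hρ1 (hψ k)
    intro φ hφ
    rw [setIntegral_eq_integral_of_forall_compl_eq_zero,
      setIntegral_eq_integral_of_forall_compl_eq_zero]
    · exact hS.eq k φ hφ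
    · intro x hx
      have h1 : φ x = 0 := by
        by_contra h
        exact hx (hφ.2.2 (subset_tsupport _ h))
      rw [h1, zero_mul]
    · intro x hx
      by_contra h
      refine hx ((cont_fd hφ (D k x)).2.2.1 h)
  have h3 : ∀ᵐ x ∂(volume.restrict (ball (0 : E n) 1)), ∀ i,
      ∑ k, (P k i x • DP k j x + P k j x • DP k i x) = 0 := by
    rw [ae_all_iff]
    intro i
    have h4 := WB_sum (fun k => hL n (P k i) (P k j) (DP k i) (DP k j) (hG.wb k i) (hG.wb k j))
    exact hU n _ (fun _ => if i = j then (1 : ℝ) else 0) _ (fun _ => 0) h4 (WB_const _)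
      (by filter_upwards [hG.orth] with x hx using hx i j)
  have key : ∀ᵐ x ∂(volume.restrict (ball (0 : E n) 1)),
      ⟪ww P D j x, Df x⟫ - f x * ∑ i, ⟪EE P DP Om j i x, ww P D i x⟫ =
      ∑ k, (⟪D k x, P k j x • Df x + f x • DP k j x⟫ -
        (P k j x * f x) * ∑ l, ⟪Om k l x, D l x⟫) := by
    filter_upwards [w1, h3] with x hx1 hx3
    exact bracket (fun k i => P k i x) (fun k i => DP k i x) (fun k l => Om k l x)
      (fun k => D k x) (fun i => ww P D i x) (Df x) (f x) j rfl hx1.2.1 hx3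
  have iA : Integrable (fun x => ⟪ww P D j x, Df x⟫) (volume.restrict (ball (0 : E n) 1)) :=
    int_inner (w2 j) hfb.d2
  have iB : Integrable (fun x => f x * ∑ i, ⟪EE P DP Om j i x, ww P D i x⟫)
      (volume.restrict (ball (0 : E n) 1)) := by
    obtain ⟨B, hB⟩ := hfb.bd
    exact Integrable.bdd_mul (c := B)
      (integrable_finsetSum _ fun i _ => int_inner (w3 j i) (w2 i)) hfb.ms
      (by filter_upwards [hB] with x hx using hx)
  have iA' : ∀ k, Integrable (fun x => ⟪D k x, P k j x • Df x + f x • DP k j x⟫)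
      (volume.restrict (ball (0 : E n) 1)) := fun k => int_inner (hS.wb k).d2 (hψb k).d2
  have iB' : ∀ k, Integrable (fun x => (P k j x * f x) * ∑ l, ⟪Om k l x, D l x⟫)
      (volume.restrict (ball (0 : E n) 1)) := by
    intro k
    obtain ⟨B, hB⟩ := (hψb k).bd
    exact Integrable.bdd_mul (c := B) (hh k) (hψb k).ms
      (by filter_upwards [hB] with x hx using hx)
  have iC : ∀ k ∈ (Finset.univ : Finset (Fin m)), Integrable (fun x =>
      ⟪D k x, P k j x • Df x + f x • DP k j x⟫ - (P k j x * f x) * ∑ l, ⟪Om k l x, D l x⟫)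
      (volume.restrict (ball (0 : E n) 1)) := fun k _ => (iA' k).sub (iB' k)
  have h5 := integral_congr_ae key
  rw [integral_sub iA iB, integral_finsetSum _ iC] at h5
  have h6 : ∀ k, ∫ x in ball (0 : E n) 1, (⟪D k x, P k j x • Df x + f x • DP k j x⟫ -
      (P k j x * f x) * ∑ l, ⟪Om k l x, D l x⟫) = 0 := by
    intro k
    rw [integral_sub (iA' k) (iB' k), heq k, sub_self]
  rw [Finset.sum_congr rfl fun k _ => h6 k, Finset.sum_const_zero] at h5
  exact sub_eq_zero.1 h5

end

end Pool.Agent.H46.RG
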